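import Pool.Agent.H72.ES.Normalize
import Pool.Agent.H8.AA.Def

/-! # [H8 VX FAR] Few very large points with `|F| ≤ H`

`H72.ES.main_count` with two parameters: `h` bounds the coefficients, `H ≤ h` the value. -/

namespace Pool.Agent.H8.VX

open Finset Polynomial Pool.Agent.H72.ES

/-- number of the points with `|G| ≤ H` of size `> h^(2500 n^4)` -/
theorem far_count {n h H : ℕ} (hn : 4 ≤ n) (hh : 2 ≤ h) (hH : 1 ≤ H) (hHh : H ≤ h) (G : ℕ → ℕ → ℤ)
    (hG : ∀ i j, i + j ≤ n → |G i j| ≤ (h : ℤ)) (ha : G 0 n ≠ 0)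
    (hirr : Irreducible (leadQ n G)) (S : Finset (ℤ × ℤ))
    (hS : ∀ P ∈ S, (h : ℤ) ^ (2500 * n ^ 4) < max |P.1| |P.2| ∧ |ev n G P.1 P.2| ≤ (H : ℤ)) :
    (S.card : ℝ) ≤ 360 * n ^ 4 * (H : ℝ) ^ (1 / (n : ℝ)) := by
  classical
  set a := G 0 n with hadef
  set M : ℕ := h ^ n with hM
  set Q : ℕ := 2 * M with hQ
  have hM2 : 2 ^ n ≤ M := Nat.pow_le_pow_left hh n
  have hfam : Fam n Q M (lead n (nrm n G)) (nrm n G) :=
    { hn := hn
      hQ := by omega
      hM := le_refl _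
      irr := lead_nrm_irreducible (by omega) G ha hirr
      lead_eq := rfl
      top := by simp [nrm]
      bound := fun i j hij => nrm_bound (by omega) G h (by omega) hG i j hij }
  set g : ℤ × ℤ → ℤ × ℤ := fun P => (P.1, a * P.2) with hg
  have hginj : Function.Injective g := by
    intro P P' h
    simp only [hg, Prod.mk.injEq] at h
    exact Prod.ext h.1 (mul_left_cancel₀ ha h.2)
  set L : ℝ := 3 * n * (H : ℝ) ^ (1 / (n : ℝ)) with hL
  have hHR : (1 : ℝ) ≤ H := by exact_mod_cast hH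
  have hhR : (1 : ℝ) ≤ h := by exact_mod_cast (by omega : 1 ≤ h)
  have hnR : (4 : ℝ) ≤ n := by exact_mod_cast hn
  have hH1n : (1 : ℝ) ≤ (H : ℝ) ^ (1 / (n : ℝ)) := Real.one_le_rpow hHR (by positivity)
  have hL1 : 1 ≤ L := by
    rw [hL]
    nlinarith
  have hmax : ∀ P : ℤ × ℤ, max |P.1| |P.2| ≤ max |P.1| |a * P.2| := by
    intro P
    refine max_le_max le_rfl ?_
    rw [abs_mul]
    have : 1 ≤ |a| := Int.one_le_abs ha
    nlinarith [abs_nonneg P.2]
  have hcard : (S.image g).card = S.card := card_image_of_injective _ hginj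
  rw [← hcard]
  have h1 := family_count hfam L hL1 (S.image g) ?_ ?_ ?_
  · calc ((S.image g).card : ℝ) ≤ 120 * L * n ^ 3 := h1
      _ = 360 * n ^ 4 * (H : ℝ) ^ (1 / (n : ℝ)) := by rw [hL]; ring
  · -- small values
    intro P hP
    obtain ⟨R, hR, rfl⟩ := mem_image.1 hP
    simp only [hg]
    rw [hadef, ev_nrm (by omega), abs_mul, abs_pow, hM]
    push_cast
    have hHhz : (H : ℤ) ≤ h := by exact_mod_cast hHh
    calc |G 0 n| ^ (n - 1) * |ev n G R.1 R.2| ≤ (h : ℤ) ^ (n - 1) * h :=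
          mul_le_mul (pow_le_pow_left₀ (abs_nonneg _) (hG 0 n (by omega)) _) ((hS R hR).2.trans hHhz)
            (abs_nonneg _) (by positivity)
      _ = (h : ℤ) ^ n := by
          rw [← pow_succ]
          congr 1
          omega
  · -- lines
    intro P hP P' hP' hne S' hS' hcol
    obtain ⟨R, hR, rfl⟩ := mem_image.1 hP
    obtain ⟨R', hR', rfl⟩ := mem_image.1 hP'
    have hRR : R ≠ R' := fun h => hne (by rw [h])
    set S0 := S.filter (fun P => g P ∈ S') with hS0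
    have hS0' : S' = S0.image g := by
      ext P
      constructor
      · intro hP
        obtain ⟨T, hT, rfl⟩ := mem_image.1 (hS' hP)
        exact mem_image.2 ⟨T, mem_filter.2 ⟨hT, hP⟩, rfl⟩
      · intro hP
        obtain ⟨T, hT, rfl⟩ := mem_image.1 hP
        exact (mem_filter.1 hT).2
    rw [hS0', card_image_of_injective _ hginj]
    refine line_bound_points (by omega) G (lead_ne (by omega) G ha hirr) H (by omega) R R' hRR S0
      ?_ ?_
    · intro T hT
      have h2 := hcol (g T) (mem_filter.1 hT).2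
      simp only [Col, hg] at h2
      have h3 : a * ((R'.1 - R.1) * (T.2 - R.2)) = a * ((T.1 - R.1) * (R'.2 - R.2)) := by
        linarith
      exact mul_left_cancel₀ ha h3
    · exact fun T hT => (hS T (mem_filter.1 hT).1).2
  · -- far away
    intro P hP
    obtain ⟨R, hR, rfl⟩ := mem_image.1 hP
    have h2 : (((h : ℤ) ^ (2500 * n ^ 4) : ℤ) : ℝ) ≤ ((max |(g R).1| |(g R).2| : ℤ) : ℝ) := by
      exact_mod_cast ((hS R hR).1.le.trans (hmax R))
    refine le_trans ?_ h2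
    have hQH : (Q : ℝ) ≤ (h : ℝ) ^ (n + 1) := by
      rw [hQ, hM]
      push_cast
      have : (2 : ℝ) ≤ h := by exact_mod_cast hh
      calc 2 * (h : ℝ) ^ n ≤ h * (h : ℝ) ^ n := by gcongr
        _ = (h : ℝ) ^ (n + 1) := by ring
    have hQ0 : (0 : ℝ) ≤ Q := Nat.cast_nonneg _
    unfold bb
    push_cast
    calc (Q : ℝ) ^ 2 * ((Q : ℝ) ^ (7 * n ^ 2)) ^ (250 * n) = (Q : ℝ) ^ (2 + 1750 * n ^ 3) := by
          rw [← pow_mul, ← pow_add]
          congr 1
          ring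
      _ ≤ ((h : ℝ) ^ (n + 1)) ^ (2 + 1750 * n ^ 3) := pow_le_pow_left₀ hQ0 hQH _
      _ = (h : ℝ) ^ ((n + 1) * (2 + 1750 * n ^ 3)) := by rw [← pow_mul]
      _ ≤ (h : ℝ) ^ (2500 * n ^ 4) := by
          refine pow_le_pow_right₀ hhR ?_
          have h3 : 4 * (n + 1) ≤ 5 * n := by omega
          have h4 : 2 + 1750 * n ^ 3 ≤ 1751 * n ^ 3 := by
            have : 2 ≤ n ^ 3 := by
              calc 2 ≤ 4 ^ 3 := by norm_num
                _ ≤ n ^ 3 := Nat.pow_le_pow_left hn 3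
            omega
          have h5 : 4 * ((n + 1) * (2 + 1750 * n ^ 3)) ≤ 4 * (2500 * n ^ 4) := by
            calc 4 * ((n + 1) * (2 + 1750 * n ^ 3)) = (4 * (n + 1)) * (2 + 1750 * n ^ 3) := by ring
              _ ≤ (5 * n) * (1751 * n ^ 3) := Nat.mul_le_mul h3 h4
              _ = 8755 * n ^ 4 := by ring
              _ ≤ 10000 * n ^ 4 := Nat.mul_le_mul_right _ (by norm_num)
              _ = 4 * (2500 * n ^ 4) := by ring
          omega

/-- the two conventions for the value agree -/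
theorem ev_conv (n : ℕ) (e : ℕ → ℕ → ℤ) (x y : ℤ) : Pool.Agent.H8.AA.ev n e x y = ev n e x y := by
  unfold Pool.Agent.H8.AA.ev ev
  rw [Finset.sum_sigma', Finset.sum_sigma']
  refine Finset.sum_bij' (fun p _ => ⟨p.1 - p.2, p.2⟩) (fun p _ => ⟨p.1 + p.2, p.2⟩) ?_ ?_ ?_ ?_ ?_
  · rintro ⟨k, j⟩ hp
    simp only [Finset.mem_sigma, Finset.mem_range] at hp ⊢
    omega
  · rintro ⟨i, j⟩ hp
    simp only [Finset.mem_sigma, Finset.mem_range] at hp ⊢
    omega
  · rintro ⟨k, j⟩ hp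
    simp only [Finset.mem_sigma, Finset.mem_range] at hp
    simp only [Sigma.mk.injEq, heq_eq_eq, and_true]
    omega
  · rintro ⟨i, j⟩ hp
    simp only [Finset.mem_sigma, Finset.mem_range] at hp
    simp only [Sigma.mk.injEq, heq_eq_eq, and_true]
    omega
  · rintro ⟨k, j⟩ hp
    simp only
    ring

theorem leadQ_conv (n : ℕ) (e : ℕ → ℕ → ℤ) :
    leadQ n e = (Pool.Agent.H8.AA.fm e n).map (Int.castRingHom ℚ) := by
  unfold leadQ Pool.Agent.H8.AA.fm
  rw [Polynomial.map_sum]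
  refine Finset.sum_congr rfl fun j _ => ?_
  rw [Polynomial.map_monomial, Polynomial.C_mul_X_pow_eq_monomial]
  simp

/-- number of the points with `|F| ≤ H` of size `> h^(2500 n^4)`, with `Ir` and `H8.AA.ev` -/
theorem farx {n h H : ℕ} (hn : 4 ≤ n) (hh : 2 ≤ h) (hH : 1 ≤ H) (hHh : H ≤ h) (e : ℕ → ℕ → ℤ)
    (hb : ∀ i j, i + j ≤ n → |e i j| ≤ (h : ℤ)) (hir : Pool.Agent.H8.AA.Ir n e) (S : Finset (ℤ × ℤ))
    (hS : ∀ P ∈ S, (h : ℤ) ^ (2500 * n ^ 4) < max |P.1| |P.2| ∧ |Pool.Agent.H8.AA.ev n e P.1 P.2| ≤ (H : ℤ)) :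
    (S.card : ℝ) ≤ 360 * n ^ 4 * (H : ℝ) ^ (1 / (n : ℝ)) := by
  refine far_count hn hh hH hHh e hb hir.1 (by rw [leadQ_conv]; exact hir.2) S ?_
  intro P hP
  refine ⟨(hS P hP).1, ?_⟩
  rw [← ev_conv]
  exact (hS P hP).2

end Pool.Agent.H8.VX
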