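import Pool.Agent.H8.VX.Main
import Pool.Agent.H72.ES.Final

/-! # [H8 VX FIN] THEOREM VX with the far solutions and the curves `F + c = 0` -/

namespace Pool.Agent.H8.VX

open MvPolynomial Pool.Agent.H8.AA

/-- the box -/
theorem box_le (n : ℕ) (hn : 4 ≤ n) (B S H : ℕ) (hB : 2 ≤ B) (hS : 1 ≤ S) (hH : 1 ≤ H) (k : ℕ) (hk : k ≤ 700 * n ^ 5) :
    ((B : ℤ) * S ^ n * H) ^ k ≤ ((B : ℤ) * S ^ n * H) ^ (700 * n ^ 5) := by
  refine pow_le_pow_right₀ ?_ hk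
  have h1 : 1 ≤ B * S ^ n * H := Nat.mul_pos (Nat.mul_pos (by omega) (Nat.pow_pos hS)) hH
  exact_mod_cast h1

/-- the solutions outside a box, number `≤ 360 n^4 H^(1/n)` -/
theorem farF (n : ℕ) (hn : 4 ≤ n) (B S H : ℕ) (hB : 2 ≤ B) (hS : 1 ≤ S) (hH : 1 ≤ H)
    (F : MvPolynomial (Fin 2) ℤ) (hF : F.totalDegree ≤ n)
    (hirr : Irreducible (map (Int.castRingHom ℚ) (homogeneousComponent n F)))
    (hFB : ∀ m : Fin 2 →₀ ℕ, m.degree = n → |F.coeff m| ≤ (B : ℤ))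
    (hFb : ∀ m : Fin 2 →₀ ℕ, m.degree < n → |F.coeff m| ≤ (S : ℤ) ^ (n - m.degree))
    (hfin : {P : Fin 2 → ℤ | |eval P F| ≤ (H : ℤ)}.Finite) :
    (({P : Fin 2 → ℤ | |eval P F| ≤ (H : ℤ) ∧ ((B : ℤ) * S ^ n * H) ^ (700 * n ^ 5) < max |P 0| |P 1|}.ncard : ℕ) : ℝ) ≤
      360 * n ^ 4 * (H : ℝ) ^ (1 / (n : ℝ)) := by
  classical
  obtain ⟨h, hh⟩ : ∃ h : ℕ, h = B * S ^ n * H := ⟨_, rfl⟩
  have hSn1 : 1 ≤ S ^ n := Nat.one_le_pow _ _ hS
  have hBS : B ≤ B * S ^ n := Nat.le_mul_of_pos_right _ hSn1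
  have hBh : B ≤ h := by
    rw [hh]
    exact hBS.trans (Nat.le_mul_of_pos_right _ hH)
  have hSh : S ^ n ≤ h := by
    rw [hh]
    exact (Nat.le_mul_of_pos_left _ (by omega)).trans (Nat.le_mul_of_pos_right _ hH)
  have hHh : H ≤ h := by
    rw [hh]
    exact Nat.le_mul_of_pos_left _ (by omega)
  have hht : ∀ i j, i + j ≤ n → |ar F i j| ≤ (h : ℤ) := by
    intro i j hij
    rcases Nat.lt_or_ge (i + j) n with h1 | h1
    · have h2 := hFb (Finsupp.single 0 i + Finsupp.single 1 j) (by rw [deg_ab]; exact h1)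
      rw [deg_ab] at h2
      refine h2.trans ?_
      exact_mod_cast (Nat.pow_le_pow_right hS (by omega : n - (i + j) ≤ n)).trans hSh
    · refine (hFB _ (by rw [deg_ab]; exact le_antisymm hij h1)).trans ?_
      exact_mod_cast hBh
  have hfin2 : {P : Fin 2 → ℤ | |eval P F| ≤ (H : ℤ) ∧
      ((B : ℤ) * S ^ n * H) ^ (700 * n ^ 5) < max |P 0| |P 1|}.Finite := hfin.subset fun P hP => hP.1
  have hinj : Function.Injective (fun P : Fin 2 → ℤ => (P 0, P 1)) := by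
    intro P Q hPQ
    simp only [Prod.mk.injEq] at hPQ
    funext i
    fin_cases i
    · exact hPQ.1
    · exact hPQ.2
  rw [Set.ncard_eq_toFinset_card _ hfin2, ← Finset.card_image_of_injective _ hinj]
  refine farx hn (hB.trans hBh) hH hHh (ar F) hht (ir_ar (by omega) hirr) _ ?_
  intro Q hQ
  obtain ⟨P, hP, rfl⟩ := Finset.mem_image.1 hQ
  have h1 : |eval P F| ≤ (H : ℤ) ∧ ((B : ℤ) * S ^ n * H) ^ (700 * n ^ 5) < max |P 0| |P 1| :=
    (Set.Finite.mem_toFinset hfin2).1 hP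
  refine ⟨?_, ?_⟩
  · show (h : ℤ) ^ (2500 * n ^ 4) < max |P 0| |P 1|
    rw [hh]
    push_cast
    refine lt_of_le_of_lt (box_le n hn B S H hB hS hH _ ?_) h1.2
    have h5 : n ^ 5 = n ^ 4 * n := pow_succ _ _
    have h6 : 0 < n ^ 4 := by positivity
    rw [h5]
    nlinarith
  · show |ev n (ar F) (P 0) (P 1)| ≤ (H : ℤ)
    rw [ev_ar hF]
    exact h1.1

/-- the solutions outside a box, no flex at infinity: number `≤ 80 n^3` -/
theorem farG (n : ℕ) (hn : 4 ≤ n) (B S H : ℕ) (hB : 2 ≤ B) (hS : 1 ≤ S) (hH : 1 ≤ H)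
    (F : MvPolynomial (Fin 2) ℤ) (hF : F.totalDegree ≤ n)
    (hirr : Irreducible (map (Int.castRingHom ℚ) (homogeneousComponent n F)))
    (hflex : ∀ t b : ℝ, n - 2 ≤ (aeval ![Polynomial.X, Polynomial.C t * Polynomial.X + Polynomial.C b] F : Polynomial ℝ).natDegree)
    (hFB : ∀ m : Fin 2 →₀ ℕ, m.degree = n → |F.coeff m| ≤ (B : ℤ))
    (hFb : ∀ m : Fin 2 →₀ ℕ, m.degree < n → |F.coeff m| ≤ (S : ℤ) ^ (n - m.degree))
    (hfin : {P : Fin 2 → ℤ | |eval P F| ≤ (H : ℤ)}.Finite) :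
    (({P : Fin 2 → ℤ | |eval P F| ≤ (H : ℤ) ∧ ((B : ℤ) * S ^ n * H) ^ (700 * n ^ 5) < max |P 0| |P 1|}.ncard : ℕ) : ℝ) ≤
      80 * n ^ 3 := by
  classical
  obtain ⟨h, hh⟩ : ∃ h : ℕ, h = B * S ^ n * H := ⟨_, rfl⟩
  have hSn1 : 1 ≤ S ^ n := Nat.one_le_pow _ _ hS
  have hBh : B ≤ h := by
    rw [hh]
    exact (Nat.le_mul_of_pos_right _ hSn1).trans (Nat.le_mul_of_pos_right _ hH)
  have hsum : S ^ n + H ≤ h := by
    rw [hh]
    have h1 : S ^ n + H ≤ 2 * (S ^ n * H) := by nlinarith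
    have h2 : 2 * (S ^ n * H) ≤ B * (S ^ n * H) := Nat.mul_le_mul_right _ hB
    rw [mul_assoc]
    exact h1.trans h2
  have hdeg : F.totalDegree = n := by
    refine le_antisymm hF ?_
    by_contra hcon
    push Not at hcon
    have h1 : homogeneousComponent n F = 0 := homogeneousComponent_eq_zero n F hcon
    rw [h1, map_zero] at hirr
    exact hirr.ne_zero rfl
  have hht : ∀ c : ℤ, |c| ≤ (H : ℤ) → ∀ m, |(F + C c).coeff m| ≤ (h : ℤ) := by
    intro c hc m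
    have hsz : (S : ℤ) ^ n + H ≤ h := by exact_mod_cast hsum
    have hSd : ∀ d, (S : ℤ) ^ (n - d) ≤ (S : ℤ) ^ n := by
      intro d
      exact_mod_cast Nat.pow_le_pow_right hS (by omega)
    have hH0 : (0 : ℤ) ≤ H := Int.natCast_nonneg H
    rw [coeff_add, coeff_C]
    rcases lt_trichotomy m.degree n with h1 | h1 | h1
    · have h2 := (hFb m h1).trans (hSd _)
      split_ifs with h3
      · calc |F.coeff m + c| ≤ |F.coeff m| + |c| := abs_add_le _ _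
          _ ≤ (S : ℤ) ^ n + H := add_le_add h2 hc
          _ ≤ h := hsz
      · rw [add_zero]
        linarith
    · rw [if_neg, add_zero]
      · refine (hFB m h1).trans ?_
        exact_mod_cast hBh
      · rintro rfl
        simp at h1
        omega
    · have h2 : F.coeff m = 0 := by
        by_contra h3
        have h4 := le_totalDegree (MvPolynomial.mem_support_iff.2 h3)
        have h5 : (m.sum fun _ e => e) = m.degree := rfl
        omega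
      rw [if_neg, add_zero, h2, abs_zero]
      · positivity
      · rintro rfl
        simp at h1
  have hfin2 : {P : Fin 2 → ℤ | |eval P F| ≤ (H : ℤ) ∧
      ((B : ℤ) * S ^ n * H) ^ (700 * n ^ 5) < max |P 0| |P 1|}.Finite := hfin.subset fun P hP => hP.1
  obtain ⟨g, hg⟩ : ∃ g : (Fin 2 → ℤ) → MvPolynomial (Fin 2) ℤ × (ℤ × ℤ),
      g = fun P => (F + C (-(eval P F)), (P 0, P 1)) := ⟨_, rfl⟩
  have hinj : Function.Injective g := by
    intro P Q hPQ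
    rw [hg] at hPQ
    simp only [Prod.mk.injEq] at hPQ
    funext i
    fin_cases i
    · exact hPQ.2.1
    · exact hPQ.2.2
  rw [Set.ncard_eq_toFinset_card _ hfin2, ← Finset.card_image_of_injective _ hinj]
  have h7 := Pool.Agent.H72.ES.bounded_exceptions hn (hB.trans hBh) F hdeg hirr hflex (hfin2.toFinset.image g) (by
    intro q hq
    obtain ⟨P, hP, rfl⟩ := Finset.mem_image.1 hq
    have h1 : |eval P F| ≤ (H : ℤ) ∧ ((B : ℤ) * S ^ n * H) ^ (700 * n ^ 5) < max |P 0| |P 1| :=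
      (Set.Finite.mem_toFinset hfin2).1 hP
    have hP2 : ![P 0, P 1] = P := by
      funext i
      fin_cases i <;> rfl
    rw [hg]
    refine ⟨?_, ?_, ?_, ?_⟩
    · show (F + C (-(eval P F)) - F).totalDegree ≤ n - 4
      rw [add_sub_cancel_left, totalDegree_C]
      omega
    · exact hht _ (by rw [abs_neg]; exact h1.1)
    · show eval ![P 0, P 1] (F + C (-(eval P F))) = 0
      rw [hP2]
      simp
    · show (h : ℤ) ^ (600 * n ^ 5) < max |P 0| |P 1|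
      rw [hh]
      push_cast
      exact lt_of_le_of_lt (box_le n hn B S H hB hS hH _ (by omega)) h1.2)
  exact_mod_cast h7

/-- from solutions to curves -/
theorem curves (F : MvPolynomial (Fin 2) ℤ) (H : ℕ) (U : (Fin 2 → ℤ) → Prop)
    (hfin : {P : Fin 2 → ℤ | |eval P F| ≤ (H : ℤ)}.Finite) :
    {c : ℤ | |c| ≤ (H : ℤ) ∧ ∃ P : Fin 2 → ℤ, eval P (F + C c) = 0 ∧ U P}.ncard ≤
      {P : Fin 2 → ℤ | |eval P F| ≤ (H : ℤ) ∧ U P}.ncard := by
  have hsub : {c : ℤ | |c| ≤ (H : ℤ) ∧ ∃ P : Fin 2 → ℤ, eval P (F + C c) = 0 ∧ U P} ⊆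
      (fun P : Fin 2 → ℤ => -(eval P F)) '' {P : Fin 2 → ℤ | |eval P F| ≤ (H : ℤ) ∧ U P} := by
    rintro c ⟨hc, P, hP, hU⟩
    have h3 : eval P F = -c := by
      have h4 : eval P F + c = 0 := by simpa using hP
      linarith
    refine ⟨P, ⟨?_, hU⟩, ?_⟩
    · rw [h3, abs_neg]
      exact hc
    · show -(eval P F) = c
      rw [h3, neg_neg]
  have h1 : {P : Fin 2 → ℤ | |eval P F| ≤ (H : ℤ) ∧ U P}.Finite := hfin.subset fun P hP => hP.1
  exact (Set.ncard_le_ncard hsub (h1.image _)).trans (Set.ncard_image_le h1)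

/-- THEOREM VX, full statement -/
theorem fin (n : ℕ) (hn : 4 ≤ n) : ∃ K : ℕ, ∀ B S H : ℕ, 2 ≤ B → 1 ≤ S → 1 ≤ H →
    ∀ F : MvPolynomial (Fin 2) ℤ, F.totalDegree ≤ n →
    Irreducible (map (Int.castRingHom ℚ) (homogeneousComponent n F)) →
    (∀ m : Fin 2 →₀ ℕ, m.degree = n → |F.coeff m| ≤ (B : ℤ)) →
    (∀ m : Fin 2 →₀ ℕ, m.degree < n → |F.coeff m| ≤ (S : ℤ) ^ (n - m.degree)) →
    {P : Fin 2 → ℤ | |eval P F| ≤ (H : ℤ)}.Finite ∧
    (({P : Fin 2 → ℤ | |eval P F| ≤ (H : ℤ)}.ncard : ℕ) : ℝ) ≤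
      (B : ℝ) ^ K * (S + (H : ℝ) ^ (2 / (n : ℝ)) * (1 + Real.log H)) ∧
    (({c : ℤ | |c| ≤ (H : ℤ) ∧ ∃ P : Fin 2 → ℤ, eval P (F + C c) = 0}.ncard : ℕ) : ℝ) ≤
      (B : ℝ) ^ K * (S + (H : ℝ) ^ (2 / (n : ℝ)) * (1 + Real.log H)) ∧
    ∀ M : ℝ, (M = 360 * n ^ 4 * (H : ℝ) ^ (1 / (n : ℝ)) ∨ M = 80 * n ^ 3 ∧ ∀ t b : ℝ,
      n - 2 ≤ (aeval ![Polynomial.X, Polynomial.C t * Polynomial.X + Polynomial.C b] F : Polynomial ℝ).natDegree) →
    (({P : Fin 2 → ℤ | |eval P F| ≤ (H : ℤ) ∧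
      ((B : ℤ) * S ^ n * H) ^ (700 * n ^ 5) < max |P 0| |P 1|}.ncard : ℕ) : ℝ) ≤ M ∧
    (({c : ℤ | |c| ≤ (H : ℤ) ∧ ∃ P : Fin 2 → ℤ, eval P (F + C c) = 0 ∧
      ((B : ℤ) * S ^ n * H) ^ (700 * n ^ 5) < max |P 0| |P 1|}.ncard : ℕ) : ℝ) ≤ M := by
  obtain ⟨K, hK⟩ := mainx n hn
  refine ⟨K, ?_⟩
  intro B S H hB hS hH F hF hirr hFB hFb
  obtain ⟨h1, h2⟩ := hK B S H hB hS hH F hF hirr hFB hFb
  refine ⟨h1, h2, ?_, ?_⟩
  · have h4 := curves F H (fun _ => True) h1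
    simp only [and_true] at h4
    exact le_trans (by exact_mod_cast h4) h2
  · intro M hM
    have h3 : (({P : Fin 2 → ℤ | |eval P F| ≤ (H : ℤ) ∧
      ((B : ℤ) * S ^ n * H) ^ (700 * n ^ 5) < max |P 0| |P 1|}.ncard : ℕ) : ℝ) ≤ M := by
      rcases hM with rfl | ⟨rfl, hflex⟩
      · exact farF n hn B S H hB hS hH F hF hirr hFB hFb h1
      · exact farG n hn B S H hB hS hH F hF hirr hflex hFB hFb h1
    have h4 := curves F H (fun P => ((B : ℤ) * S ^ n * H) ^ (700 * n ^ 5) < max |P 0| |P 1|) h1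
    exact ⟨h3, le_trans (by exact_mod_cast h4) h3⟩

end Pool.Agent.H8.VX
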