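import Pool.Agent.H8.AA.Box
import Pool.Agent.H12.ON.Deh

/-! # [H8 VX VEC] The array of coefficients of a polynomial -/

namespace Pool.Agent.H8.VX

open MvPolynomial Pool.Agent.H8.AA

/-- the array of a polynomial -/
noncomputable def ar (F : MvPolynomial (Fin 2) ℤ) : ℕ → ℕ → ℤ :=
  fun a b => F.coeff (Finsupp.single 0 a + Finsupp.single 1 b)

/-- the vector of a polynomial -/
noncomputable def vc (n : ℕ) (F : MvPolynomial (Fin 2) ℤ) : Ix n → ℤ :=
  fun p => F.coeff (Finsupp.single 0 p.1.1.val + Finsupp.single 1 p.1.2.val)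

theorem pol_vc {n : ℕ} {F : MvPolynomial (Fin 2) ℤ} (hF : F.totalDegree ≤ n) : pol (vc n F) = F :=
  Pool.Agent.H85.AA.pol_surj F hF

theorem co_vc {n : ℕ} (F : MvPolynomial (Fin 2) ℤ) {a b : ℕ} (h : a + b ≤ n) : co (vc n F) a b = ar F a b := by
  rw [co_of_le _ h]
  rfl

theorem deg_ab (a b : ℕ) : (Finsupp.single (0 : Fin 2) a + Finsupp.single 1 b : Fin 2 →₀ ℕ).degree = a + b := by
  rw [map_add, Finsupp.degree_single, Finsupp.degree_single]

/-- the value -/
theorem ev_ar {n : ℕ} {F : MvPolynomial (Fin 2) ℤ} (hF : F.totalDegree ≤ n) (P : Fin 2 → ℤ) :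
    ev n (ar F) (P 0) (P 1) = eval P F := by
  rw [← pol_vc hF, pol_eval, pol_vc hF]
  unfold ev
  refine Finset.sum_congr rfl fun k hk => Finset.sum_congr rfl fun j hj => ?_
  have hk' := Finset.mem_range.1 hk
  have hj' := Finset.mem_range.1 hj
  rw [co_vc F (by omega)]

theorem ir_ar {n : ℕ} (hn : 2 ≤ n) {F : MvPolynomial (Fin 2) ℤ}
    (hirr : Irreducible (map (Int.castRingHom ℚ) (homogeneousComponent n F))) : Ir n (ar F) := by
  have hh : homogeneousComponent n (map (Int.castRingHom ℚ) F) = map (Int.castRingHom ℚ) (homogeneousComponent n F) := by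
    ext m
    rw [coeff_homogeneousComponent, coeff_map, coeff_map, coeff_homogeneousComponent]
    split_ifs
    · rfl
    · rw [map_zero]
  obtain ⟨h1, h2⟩ := H12.ON.deh hn (F := map (Int.castRingHom ℚ) F) (by rw [hh]; exact hirr)
  have h3 : H12.ON.ftop n (map (Int.castRingHom ℚ) F) = (fm (ar F) n).map (Int.castRingHom ℚ) := by
    unfold H12.ON.ftop fm
    rw [Polynomial.map_sum]
    refine Finset.sum_congr rfl fun j hj => ?_
    rw [Polynomial.map_monomial, coeff_map]
    rfl
  rw [h3] at h1 h2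
  refine ⟨fun h0 => ?_, h2⟩
  have h4 : ((fm (ar F) n).map (Int.castRingHom ℚ)).coeff n = 0 := by
    rw [Polynomial.coeff_map, fm_coeff, if_pos le_rfl, Nat.sub_self, h0, map_zero]
  have h5 : ((fm (ar F) n).map (Int.castRingHom ℚ)).leadingCoeff = 0 := by
    rw [Polynomial.leadingCoeff, h1]
    exact h4
  exact h2.ne_zero (Polynomial.leadingCoeff_eq_zero.1 h5)

end Pool.Agent.H8.VX
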