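import Pool.Agent.H8.VX.Far
import Pool.Agent.H8.VX.Vec
import Pool.Agent.H99.VX.Medx
import Pool.Agent.H99.VX.Smx

/-! # [H8 VX MAIN] THEOREM VX: `|F(x,y)| ≤ H` has at most `B^k (S + H^(2/n) (1 + log H))` integer solutions, `k = k(n)`

Uniform in ALL coefficients of `F` (`B` bounds the coefficients of the leading form). Far points: `farx` (no Roth); below: `medx`, `smx`. -/

namespace Pool.Agent.H8.VX

open MvPolynomial Pool.Agent.H8.AA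

/-- the choice of `S'` -/
theorem numx (n : ℕ) (hn : 4 ≤ n) (S H : ℕ) (hS : 1 ≤ S) (hH : 1 ≤ H) :
    ∃ S' : ℕ, S ≤ S' ∧ H ^ 2 ≤ S' ^ n ∧ H ≤ S' ^ (n - 1) ∧ (S' : ℝ) ≤ S + 2 * (H : ℝ) ^ (2 / (n : ℝ)) := by
  have hn0 : (0 : ℝ) < n := by
    have : 0 < n := by omega
    exact_mod_cast this
  have hH1 : (1 : ℝ) ≤ H := by exact_mod_cast hH
  have hH0 : (0 : ℝ) ≤ H := by linarith
  obtain ⟨b, hb⟩ : ∃ b : ℝ, b = (H : ℝ) ^ (2 / (n : ℝ)) := ⟨_, rfl⟩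
  have hb1 : 1 ≤ b := by rw [hb]; exact Real.one_le_rpow hH1 (by positivity)
  have hbn : b ^ n = (H : ℝ) ^ 2 := by
    rw [hb, ← Real.rpow_natCast, ← Real.rpow_mul hH0, div_mul_cancel₀ _ hn0.ne']
    norm_num
  have h1 : b ≤ ((max S ⌈b⌉₊ : ℕ) : ℝ) := (Nat.le_ceil b).trans (by exact_mod_cast le_max_right _ _)
  have h2 : H ^ 2 ≤ (max S ⌈b⌉₊) ^ n := by
    have h3 : (H : ℝ) ^ 2 ≤ ((max S ⌈b⌉₊ : ℕ) : ℝ) ^ n := by
      rw [← hbn]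
      exact pow_le_pow_left₀ (by linarith) h1 _
    exact_mod_cast h3
  have hS1 : 1 ≤ max S ⌈b⌉₊ := hS.trans (le_max_left _ _)
  refine ⟨max S ⌈b⌉₊, le_max_left _ _, h2, ?_, ?_⟩
  · have h4 : (max S ⌈b⌉₊) ^ n ≤ ((max S ⌈b⌉₊) ^ (n - 1)) ^ 2 := by
      rw [← pow_mul]
      exact Nat.pow_le_pow_right hS1 (by omega)
    exact (Nat.pow_le_pow_iff_left (by norm_num : (2 : ℕ) ≠ 0)).1 (h2.trans h4)
  · rw [← hb]
    have h5 : (⌈b⌉₊ : ℝ) ≤ 2 * b := by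
      have := (Nat.ceil_lt_add_one (by linarith : 0 ≤ b)).le
      linarith
    have hS0 : (0 : ℝ) ≤ S := Nat.cast_nonneg S
    push_cast
    refine max_le ?_ ?_ <;> linarith

/-- all integer points with `|F| ≤ H` -/
theorem ptsx (n : ℕ) (hn : 4 ≤ n) : ∃ k : ℕ, ∀ B : ℕ, 2 ≤ B → ∀ e : ℕ → ℕ → ℤ, Ir n e →
    (∀ a b, a + b = n → |e a b| ≤ (B : ℤ)) → ∀ S H : ℕ, 1 ≤ S → 1 ≤ H → H ^ 2 ≤ S ^ n → H ≤ S ^ (n - 1) →
    (∀ a b, a + b < n → |e a b| ≤ ((S : ℤ) ^ (n - (a + b)))) → ∀ T : Finset (ℤ × ℤ),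
    (∀ P ∈ T, |ev n e P.1 P.2| ≤ (H : ℤ)) →
    (T.card : ℝ) ≤ (B : ℝ) ^ k * (S + (H : ℝ) ^ (2 / (n : ℝ)) * (1 + Real.log H)) := by
  classical
  obtain ⟨k₁, hmed⟩ := Pool.Agent.H99.VX.medx n hn (2500 * n ^ 4)
  obtain ⟨k₂, hsm⟩ := Pool.Agent.H99.VX.smx n (by omega)
  refine ⟨k₁ + k₂ + 360 * n ^ 4 + 2, ?_⟩
  intro B hB e hir htop S H hS hH hHS hHS' hlow T hT
  obtain ⟨h, hh⟩ : ∃ h : ℕ, h = B * S ^ n := ⟨_, rfl⟩
  have hSn1 : 1 ≤ S ^ n := Nat.one_le_pow _ _ hS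
  have hh2 : 2 ≤ h := by
    rw [hh]
    nlinarith
  have hBh : B ≤ h := by
    rw [hh]
    nlinarith
  have hSh : S ^ n ≤ h := by
    rw [hh]
    nlinarith
  have hHh : H ≤ h := (hHS'.trans (Nat.pow_le_pow_right hS (by omega))).trans hSh
  have hht : ∀ i j, i + j ≤ n → |e i j| ≤ (h : ℤ) := by
    intro i j hij
    rcases Nat.lt_or_ge (i + j) n with h1 | h1
    · refine (hlow i j h1).trans ?_
      exact_mod_cast (Nat.pow_le_pow_right hS (by omega : n - (i + j) ≤ n)).trans hSh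
    · refine (htop i j (le_antisymm hij h1)).trans ?_
      exact_mod_cast hBh
  have hn4 : (4 : ℝ) ≤ n := by exact_mod_cast hn
  have hn0 : (0 : ℝ) < n := by linarith
  have hB2 : (2 : ℝ) ≤ B := by exact_mod_cast hB
  have hB1 : (1 : ℝ) ≤ B := by linarith
  have hS1 : (1 : ℝ) ≤ S := by exact_mod_cast hS
  have hH1 : (1 : ℝ) ≤ H := by exact_mod_cast hH
  have hlH := Real.log_nonneg hH1
  have hBk : (1 : ℝ) ≤ (B : ℝ) ^ k₁ := one_le_pow₀ hB1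
  have hBk2 : (1 : ℝ) ≤ (B : ℝ) ^ k₂ := one_le_pow₀ hB1
  have hKS : 1 ≤ (B : ℝ) ^ k₁ * S := by nlinarith
  obtain ⟨Z, hZ⟩ : ∃ Z : ℝ, Z = (H : ℝ) ^ (2 / (n : ℝ)) * (1 + Real.log H) := ⟨_, rfl⟩
  have hZ0 : 0 ≤ Z := by rw [hZ]; positivity
  set T0 := T.filter fun P => (h : ℤ) ^ (2500 * n ^ 4) < max |P.1| |P.2| with hT0
  set T3 := T.filter fun P => ¬ (h : ℤ) ^ (2500 * n ^ 4) < max |P.1| |P.2| with hT3
  set T1 := T3.filter fun P => (B : ℝ) ^ k₁ * S ≤ (max |P.1| |P.2| : ℤ) with hT1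
  set T2 := T3.filter fun P => ¬ (B : ℝ) ^ k₁ * S ≤ (max |P.1| |P.2| : ℤ) with hT2
  have h0 : (T0.card : ℝ) ≤ (B : ℝ) ^ (360 * n ^ 4) * Z := by
    have h1 := farx hn hh2 hH hHh e hht hir T0 (by
      intro P hP
      rw [hT0, Finset.mem_filter] at hP
      exact ⟨hP.2, hT P hP.1⟩)
    refine h1.trans ?_
    have h2 : ((360 * n ^ 4 : ℕ) : ℝ) ≤ (B : ℝ) ^ (360 * n ^ 4) := by
      have h3 : (360 * n ^ 4 : ℕ) < 2 ^ (360 * n ^ 4) := Nat.lt_two_pow_self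
      calc ((360 * n ^ 4 : ℕ) : ℝ) ≤ ((2 ^ (360 * n ^ 4) : ℕ) : ℝ) := by exact_mod_cast h3.le
        _ = (2 : ℝ) ^ (360 * n ^ 4) := by rw [Nat.cast_pow, Nat.cast_ofNat]
        _ ≤ _ := pow_le_pow_left₀ (by norm_num) hB2 _
    have h4 : (H : ℝ) ^ (1 / (n : ℝ)) ≤ Z := by
      rw [hZ]
      have h5 : (H : ℝ) ^ (1 / (n : ℝ)) ≤ (H : ℝ) ^ (2 / (n : ℝ)) :=
        Real.rpow_le_rpow_of_exponent_le hH1 (div_le_div_of_nonneg_right (by norm_num) hn0.le)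
      exact h5.trans (le_mul_of_one_le_right (by positivity) (by linarith))
    push_cast at h2
    exact mul_le_mul h2 h4 (by positivity) (by positivity)
  have h1 : (T1.card : ℝ) ≤ (B : ℝ) ^ k₁ * S := by
    refine hmed B hB e hir htop S H hS hH hHS hlow T1 ?_
    intro P hP
    rw [hT1, Finset.mem_filter, hT3, Finset.mem_filter] at hP
    refine ⟨hT P hP.1.1, hP.2, ?_⟩
    have h2 := not_lt.1 hP.1.2
    rw [hh] at h2
    push_cast at h2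
    exact h2
  have h2 : (T2.card : ℝ) ≤ (B : ℝ) ^ k₂ * ((B : ℝ) ^ k₁ * S + Z) := by
    rw [hZ]
    refine hsm B hB e hir (htop 0 n (by omega)) ((B : ℝ) ^ k₁ * S) H hKS hH1 T2 ?_
    intro P hP
    rw [hT2, Finset.mem_filter, hT3, Finset.mem_filter] at hP
    refine ⟨by exact_mod_cast (hT P hP.1.1), ?_⟩
    have h3 := hP.2
    push Not at h3
    have h5 : (|P.1| : ℤ) ≤ max |P.1| |P.2| := le_max_left _ _
    have h6 : ((|P.1| : ℤ) : ℝ) ≤ ((max |P.1| |P.2| : ℤ) : ℝ) := by exact_mod_cast h5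
    push_cast at h6 h3
    linarith
  have h3 : T.card = T0.card + (T1.card + T2.card) := by
    rw [hT1, hT2, Finset.card_filter_add_card_filter_not, hT0, hT3, Finset.card_filter_add_card_filter_not]
  rw [h3, ← hZ]
  push_cast
  obtain ⟨b₁, hb₁⟩ : ∃ b₁ : ℝ, b₁ = (B : ℝ) ^ k₁ := ⟨_, rfl⟩
  obtain ⟨b₂, hb₂⟩ : ∃ b₂ : ℝ, b₂ = (B : ℝ) ^ k₂ := ⟨_, rfl⟩
  obtain ⟨b₃, hb₃⟩ : ∃ b₃ : ℝ, b₃ = (B : ℝ) ^ (360 * n ^ 4) := ⟨_, rfl⟩
  have hBk3 : (1 : ℝ) ≤ (B : ℝ) ^ (360 * n ^ 4) := one_le_pow₀ hB1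
  have hpow : (B : ℝ) ^ (k₁ + k₂ + 360 * n ^ 4 + 2) = b₁ * b₂ * b₃ * (B : ℝ) ^ 2 := by
    rw [hb₁, hb₂, hb₃, ← pow_add, ← pow_add, ← pow_add]
  rw [hpow]
  rw [← hb₁] at h1 h2 hBk
  rw [← hb₂] at h2 hBk2
  rw [← hb₃] at h0 hBk3
  obtain ⟨Y, hY⟩ : ∃ Y : ℝ, Y = S + Z := ⟨_, rfl⟩
  have hY0 : 0 ≤ Y := by rw [hY]; linarith
  have hSY : (S : ℝ) ≤ Y := by rw [hY]; linarith
  have hZY : Z ≤ Y := by rw [hY]; linarith
  rw [← hY]
  have h12 : (1 : ℝ) ≤ b₁ * b₂ := one_le_mul_of_one_le_of_one_le hBk hBk2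
  have h123 : b₁ * b₂ ≤ b₁ * b₂ * b₃ := le_mul_of_one_le_right (by linarith) hBk3
  have e0 : b₃ * Z ≤ b₁ * b₂ * b₃ * Y := by
    have : b₃ ≤ b₁ * b₂ * b₃ := by nlinarith
    exact mul_le_mul this hZY hZ0 (by nlinarith)
  have e1 : b₁ * S ≤ b₁ * b₂ * b₃ * Y := by
    have : b₁ ≤ b₁ * b₂ := le_mul_of_one_le_right (by linarith) hBk2
    exact mul_le_mul (this.trans h123) hSY (by linarith) (by nlinarith)
  have e2 : b₂ * (b₁ * S + Z) ≤ b₁ * b₂ * b₃ * Y := by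
    have h7 : b₁ * S + Z ≤ b₁ * Y := by
      rw [hY]
      nlinarith
    calc b₂ * (b₁ * S + Z) ≤ b₂ * (b₁ * Y) := mul_le_mul_of_nonneg_left h7 (by linarith)
      _ = b₁ * b₂ * Y := by ring
      _ ≤ _ := mul_le_mul_of_nonneg_right h123 hY0
  have e3 : 3 * (b₁ * b₂ * b₃ * Y) ≤ b₁ * b₂ * b₃ * (B : ℝ) ^ 2 * Y := by
    have h8 : (4 : ℝ) ≤ (B : ℝ) ^ 2 := by nlinarith
    have h9 : 0 ≤ b₁ * b₂ * b₃ * Y := by
      have : 0 ≤ b₁ * b₂ * b₃ := by nlinarith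
      positivity
    nlinarith
  linarith

/-- THEOREM VX -/
theorem mainx (n : ℕ) (hn : 4 ≤ n) : ∃ k : ℕ, ∀ B S H : ℕ, 2 ≤ B → 1 ≤ S → 1 ≤ H →
    ∀ F : MvPolynomial (Fin 2) ℤ, F.totalDegree ≤ n →
    Irreducible (map (Int.castRingHom ℚ) (homogeneousComponent n F)) →
    (∀ m : Fin 2 →₀ ℕ, m.degree = n → |F.coeff m| ≤ (B : ℤ)) →
    (∀ m : Fin 2 →₀ ℕ, m.degree < n → |F.coeff m| ≤ (S : ℤ) ^ (n - m.degree)) →
    {P : Fin 2 → ℤ | |eval P F| ≤ (H : ℤ)}.Finite ∧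
    (({P : Fin 2 → ℤ | |eval P F| ≤ (H : ℤ)}.ncard : ℕ) : ℝ) ≤
      (B : ℝ) ^ k * (S + (H : ℝ) ^ (2 / (n : ℝ)) * (1 + Real.log H)) := by
  classical
  obtain ⟨k, hk⟩ := ptsx n hn
  refine ⟨k + 2, ?_⟩
  intro B S H hB hS hH F hF hirr hFB hFb
  obtain ⟨S', hSS', hHS2, hHS', h1⟩ := numx n hn S H hS hH
  have hir := ir_ar (by omega) hirr
  have htop : ∀ a b, a + b = n → |ar F a b| ≤ (B : ℤ) := fun a b hab => hFB _ (by rw [deg_ab]; exact hab)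
  have hlow : ∀ a b, a + b < n → |ar F a b| ≤ ((S' : ℤ) ^ (n - (a + b))) := by
    intro a b hab
    have h2 := hFb (Finsupp.single 0 a + Finsupp.single 1 b) (by rw [deg_ab]; exact hab)
    rw [deg_ab] at h2
    refine h2.trans ?_
    exact_mod_cast Nat.pow_le_pow_left hSS' _
  have hB2 : (2 : ℝ) ≤ B := by exact_mod_cast hB
  have hH1 : (1 : ℝ) ≤ H := by exact_mod_cast hH
  have hlH := Real.log_nonneg hH1
  have hS0 : (0 : ℝ) ≤ S := Nat.cast_nonneg S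
  obtain ⟨b, hb⟩ : ∃ b : ℝ, b = (H : ℝ) ^ (2 / (n : ℝ)) := ⟨_, rfl⟩
  have hb1 : 1 ≤ b := by rw [hb]; exact Real.one_le_rpow hH1 (by positivity)
  rw [← hb] at h1
  have h4 : b ≤ b * (1 + Real.log H) := le_mul_of_one_le_right (by linarith) (by linarith)
  have hbound : ∀ T : Finset (ℤ × ℤ), (∀ P ∈ T, |ev n (ar F) P.1 P.2| ≤ (H : ℤ)) →
      (T.card : ℝ) ≤ (B : ℝ) ^ (k + 2) * (S + b * (1 + Real.log H)) := by
    intro T hT
    have h5 := hk B hB (ar F) hir htop S' H (hS.trans hSS') hH hHS2 hHS' hlow T hT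
    rw [← hb] at h5
    refine h5.trans ?_
    have h6 : (S' : ℝ) + b * (1 + Real.log H) ≤ 3 * (S + b * (1 + Real.log H)) := by linarith
    have h7 : (4 : ℝ) ≤ (B : ℝ) ^ 2 := by nlinarith
    have h8 : 0 ≤ (S : ℝ) + b * (1 + Real.log H) := by positivity
    calc (B : ℝ) ^ k * (S' + b * (1 + Real.log H)) ≤ (B : ℝ) ^ k * (3 * (S + b * (1 + Real.log H))) :=
          mul_le_mul_of_nonneg_left h6 (by positivity)
      _ ≤ (B : ℝ) ^ k * ((B : ℝ) ^ 2 * (S + b * (1 + Real.log H))) :=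
          mul_le_mul_of_nonneg_left (by nlinarith) (by positivity)
      _ = _ := by rw [pow_add]; ring
  -- from pairs to functions
  have hinj : Function.Injective (fun P : Fin 2 → ℤ => (P 0, P 1)) := by
    intro P Q hPQ
    simp only [Prod.mk.injEq] at hPQ
    funext i
    fin_cases i
    · exact hPQ.1
    · exact hPQ.2
  have hfb : ∀ T : Finset (Fin 2 → ℤ), (∀ P ∈ T, |eval P F| ≤ (H : ℤ)) →
      (T.card : ℝ) ≤ (B : ℝ) ^ (k + 2) * (S + b * (1 + Real.log H)) := by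
    intro T hT
    rw [← Finset.card_image_of_injective T hinj]
    refine hbound _ ?_
    intro Q hQ
    obtain ⟨P, hP, rfl⟩ := Finset.mem_image.1 hQ
    show |ev n (ar F) (P 0) (P 1)| ≤ (H : ℤ)
    rw [ev_ar hF]
    exact hT P hP
  have hfin : {P : Fin 2 → ℤ | |eval P F| ≤ (H : ℤ)}.Finite := by
    by_contra hinf
    obtain ⟨N, hN⟩ := exists_nat_gt ((B : ℝ) ^ (k + 2) * (S + b * (1 + Real.log H)))
    obtain ⟨T, hTs, hTc⟩ := Set.Infinite.exists_subset_card_eq hinf N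
    have h9 := hfb T (fun P hP => hTs hP)
    rw [hTc] at h9
    linarith
  refine ⟨hfin, ?_⟩
  rw [← hb, Set.ncard_eq_toFinset_card _ hfin]
  exact hfb _ (fun P hP => by simpa using (Set.Finite.mem_toFinset hfin).1 hP)

end Pool.Agent.H8.VX
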